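import Pool.Agent.MP_a3b80b_mp.H38.Dim

open Pool.Agent.MP_a3b80b_mp.H38

namespace Pool.Agent.Results.MP_a3b80b_mp.CodimOne

/-- There is a finite connected leafless multigraph with `p ≥ 3` vertices and `q` edges such that
the parameters with all gaps open (exactly `p - 1` gaps) are dense in the parameter space, while
the remaining parameters form a set of Hausdorff dimension `p + q - 1`. -/
theorem result :
    ∃ (p q : ℕ) (G : MGraph p q) (v₀ : Fin p), 3 ≤ p ∧ G.Connected ∧ G.Leafless ∧
      (∀ θ, ∃! H, G.IsLift v₀ θ H) ∧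
      Param p q ⊆ closure (G.allOpen v₀) ∧
      dimH (Param p q \ G.allOpen v₀) + 1 = p + q := by
  have h : G0.allOpen 0 = OO := by
    ext θ
    simp only [OO, MGraph.allOpen, Set.mem_ofPred_eq, Nat.cast_ofNat]
    refine and_congr_right fun _ => ?_
    have h3 : ∀ n : ℕ∞, n + 1 = 3 ↔ n = 2 := fun n => by
      rw [show (3 : ℕ∞) = 2 + 1 from rfl]
      exact WithTop.add_right_inj ENat.one_ne_top
    have h4 : spec (HH θ) = spectrum ℝ (HH θ) := spec_eq _
    constructor
    · rintro ⟨H, h1, h2⟩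
      rw [eq_HH h1, h4] at h2
      exact (h3 _).1 h2
    · exact fun h1 => ⟨_, isLift_HH θ, (h3 _).2 (by rw [h4]; exact h1)⟩
  refine ⟨3, 5, G0, 0, le_rfl, G0_connected, G0_leafless,
    fun θ => ⟨HH θ, isLift_HH θ, fun _ => eq_HH⟩, ?_, ?_⟩
  · rw [h]; exact dense_OO
  · rw [h, le_antisymm dim_upper dim_lower]
    norm_num

end Pool.Agent.Results.MP_a3b80b_mp.CodimOne
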